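import Mathlib
import Pool.Agent.Q34.CE.Gen

/-!
# MP_97fe03_al, Q1: homological shift algebras of complementary edge ideals

For every field `K`, every connected graph `G` on `n` vertices and every `i` the homological shift
algebra `HS_i(R(I_c(G)))` of the complementary edge ideal is generated in degrees `≤ i` as a module
over the Rees algebra: `HS_i(I^(s+1)) = I · HS_i(I^s)` for all `s ≥ i`.
-/

set_option autoImplicit false

namespace Pool.Agent.Results.MP_97fe03_al.ComplementaryEdge

open MvPolynomial Finset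

variable {K : Type*} [Field K] {n : ℕ}

/-- The complementary edge ideal `I_c(G)` of a graph `G` on the vertices `1, …, n`: it is generated
by the monomials `x_1 ⋯ x_n / (x_j x_k)`, `{j, k}` an edge of `G`. -/
noncomputable def compEdge (K : Type*) [Field K] (G : SimpleGraph (Fin n)) :
    Ideal (MvPolynomial (Fin n) K) :=
  Ideal.span {p | ∃ j k, G.Adj j k ∧ p = ∏ l ∈ univ \ {j, k}, X l}

/-- The exponent vector of the squarefree monomial `∏_{i ∈ F} x_i`. -/
noncomputable def expo (F : Finset (Fin n)) : Fin n →₀ ℕ := ∑ i ∈ F, Finsupp.single i 1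

/-- The component of multidegree `a` of the module `K_i(x; S) ⊗ I` of the Koszul complex of
`x_1, …, x_n` with coefficients in the monomial ideal `I`: it has the basis `x^(a - F) e_F`, where
`F` runs through the `i`-element subsets of `{1, …, n}` with `x^(a - F) ∈ I`. Its elements are
written as functions `c` on the subsets `F`. -/
def IsKoszulChain (I : Ideal (MvPolynomial (Fin n) K)) (i : ℕ) (a : Fin n →₀ ℕ)
    (c : Finset (Fin n) → K) : Prop :=
  ∀ F, c F ≠ 0 → F.card = i ∧ expo F ≤ a ∧ monomial (a - expo F) (1 : K) ∈ I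

/-- The differential of the Koszul complex,
`e_F ↦ ∑_{j ∈ F} (-1)^(number of l ∈ F with l < j) x_j e_(F \ j)`: the coefficient at `G` of the
image of `c`. -/
def koszulD (c : Finset (Fin n) → K) (G : Finset (Fin n)) : K :=
  ∑ j ∈ univ \ G, (-1) ^ (G.filter (· < j)).card * c (insert j G)

/-- `Tor_i^S(K, I)_a ≠ 0`: the homology of the Koszul complex `K(x; S) ⊗ I` in homological degree
`i` and multidegree `a` is not zero. -/
def TorNonzero (I : Ideal (MvPolynomial (Fin n) K)) (i : ℕ) (a : Fin n →₀ ℕ) : Prop :=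
  ∃ z : Finset (Fin n) → K, IsKoszulChain I i a z ∧ koszulD z = 0 ∧
    ∀ w : Finset (Fin n) → K, IsKoszulChain I (i + 1) a w → koszulD w ≠ z

/-- The `i`-th homological shift ideal `HS_i(I)`, generated by the monomials `x^a` with
`Tor_i^S(K, I)_a ≠ 0`. -/
noncomputable def HS (i : ℕ) (I : Ideal (MvPolynomial (Fin n) K)) :
    Ideal (MvPolynomial (Fin n) K) :=
  Ideal.span ((fun a => monomial a (1 : K)) '' {a | TorNonzero I i a})

open Q34.CE

theorem span_mul (S T : Set (Fin n →₀ ℕ)) :
    Ideal.span ((fun u => monomial u (1 : K)) '' S) *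
      Ideal.span ((fun u => monomial u (1 : K)) '' T) =
    Ideal.span ((fun u => monomial u (1 : K)) '' {z | ∃ x ∈ S, ∃ y ∈ T, z = x + y}) := by
  rw [Ideal.span_mul_span']
  congr 1
  ext f
  rw [Set.mem_mul]
  constructor
  · rintro ⟨_, ⟨x, hx, rfl⟩, _, ⟨y, hy, rfl⟩, rfl⟩
    refine ⟨x + y, ⟨x, hx, y, hy, rfl⟩, ?_⟩
    simp only [monomial_mul, one_mul]
  · rintro ⟨_, ⟨x, hx, y, hy, rfl⟩, rfl⟩
    refine ⟨_, ⟨x, hx, rfl⟩, _, ⟨y, hy, rfl⟩, ?_⟩
    simp only [monomial_mul, one_mul]

theorem expo_apply (F : Finset (Fin n)) (j : Fin n) : expo F j = if j ∈ F then 1 else 0 := by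
  rw [expo, Finsupp.finsetSum_apply]
  simp only [Finsupp.single_apply]
  rw [sum_ite_eq']

theorem expo_cast (F : Finset (Fin n)) (j : Fin n) : ((expo F j : ℕ) : ℤ) = ind F j := by
  rw [expo_apply]
  unfold ind
  split_ifs <;> rfl

theorem prod_X (F : Finset (Fin n)) : ∏ l ∈ F, (X l : MvPolynomial (Fin n) K) =
    monomial (expo F) 1 := by
  rw [expo, monomial_sum_one]
  rfl

/-- the exponents of the generators -/
def gens (G : SimpleGraph (Fin n)) : Set (Fin n →₀ ℕ) :=
  {u | ∃ j k, G.Adj j k ∧ u = expo (univ \ {j, k})}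

theorem compEdge_eq (G : SimpleGraph (Fin n)) :
    compEdge K G = Ideal.span ((fun u => monomial u (1 : K)) '' gens G) := by
  unfold compEdge
  congr 1
  ext p
  constructor
  · rintro ⟨j, k, hjk, rfl⟩
    exact ⟨_, ⟨j, k, hjk, rfl⟩, (prod_X _).symm⟩
  · rintro ⟨_, ⟨j, k, hjk, rfl⟩, rfl⟩
    exact ⟨j, k, hjk, (prod_X _).symm⟩

theorem expo_edge {j k : Fin n} (hjk : j ≠ k) (x : Fin n) :
    ((expo (univ \ {j, k}) x : ℕ) : ℤ) = 1 - ee j x - ee k x := by
  rw [expo_cast]
  unfold ind ee
  by_cases h1 : x = j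
  · subst h1
    simp [hjk]
  · by_cases h2 : x = k
    · subst h2
      simp [h1]
    · simp [h1, h2]

/-- the exponents of the generators of the powers -/
def pgens (G : SimpleGraph (Fin n)) (s : ℕ) : Set (Fin n →₀ ℕ) :=
  {u | ∃ d, PM G s d ∧ ∀ j, (u j : ℤ) + d j = s}

theorem PM_le {G : SimpleGraph (Fin n)} {s : ℕ} {d : Z n} (h : PM G s d) (j : Fin n) :
    d j ≤ s := by
  induction h with
  | zero => exact le_rfl
  | @add s x a b _ hab ih =>
    show x j + ee a j + ee b j ≤ ((s + 1 : ℕ) : ℤ)
    push_cast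
    by_cases h1 : j = a
    · subst h1
      rw [ee_self, ee_ne hab.ne]
      omega
    · rw [ee_ne h1]
      have := ee_le b j
      omega

theorem pow_eq (G : SimpleGraph (Fin n)) (s : ℕ) :
    compEdge K G ^ s = Ideal.span ((fun u => monomial u (1 : K)) '' pgens G s) := by
  induction s with
  | zero =>
    rw [pow_zero, Ideal.one_eq_top, eq_comm, Ideal.eq_top_iff_one]
    refine Ideal.subset_span ⟨0, ⟨0, PM.zero, fun j => by simp⟩, rfl⟩
  | succ s ih =>
    rw [pow_succ, ih, compEdge_eq, span_mul]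
    congr 2
    ext u
    constructor
    · rintro ⟨x, ⟨d, hd, hx⟩, _, ⟨j, k, hjk, rfl⟩, rfl⟩
      refine ⟨d + ee j + ee k, PM.add hd hjk, fun l => ?_⟩
      have h1 := hx l
      have h2 := expo_edge hjk.ne l
      rw [Finsupp.add_apply]
      show ((x l + expo (univ \ {j, k}) l : ℕ) : ℤ) + (d l + ee j l + ee k l) = ((s + 1 : ℕ) : ℤ)
      push_cast
      rw [h2]
      omega
    · rintro ⟨d', hd', hu⟩
      cases hd' with
      | @add _ d j k hd hjk =>
        refine ⟨Finsupp.equivFunOnFinite.symm fun l => (s - d l).toNat, ⟨d, hd, fun l => ?_⟩,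
          _, ⟨j, k, hjk, rfl⟩, ?_⟩
        · have h1 := PM_le hd l
          show (((s - d l).toNat : ℕ) : ℤ) + d l = s
          rw [Int.toNat_of_nonneg (by omega)]
          omega
        · ext l
          have h1 := PM_le hd l
          have h2 := expo_edge hjk.ne l
          have h3 : (u l : ℤ) + (d l + ee j l + ee k l) = ((s + 1 : ℕ) : ℤ) := hu l
          rw [Finsupp.add_apply]
          show u l = (s - d l).toNat + expo (univ \ {j, k}) l
          push_cast at h3
          omega

/-- the complementary multidegree -/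
def cc (s : ℕ) (a : Fin n →₀ ℕ) : Z n := fun j => (s : ℤ) - a j

theorem chain_iff (G : SimpleGraph (Fin n)) (s i : ℕ) (a : Fin n →₀ ℕ)
    (z : Finset (Fin n) → K) : IsKoszulChain (compEdge K G ^ s) i a z ↔
      Ch {x | PM G s x} (cc s a) i z := by
  have h2 : ∀ F : Finset (Fin n), (expo F ≤ a ∧ monomial (a - expo F) (1 : K) ∈
      compEdge K G ^ s) ↔ Del {x | PM G s x} (cc s a) F := by
    intro F
    rw [pow_eq, mem_ideal_span_monomial_image]
    classical
    rw [support_monomial, if_neg one_ne_zero]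
    simp only [mem_singleton, forall_eq]
    constructor
    · rintro ⟨h1, u, ⟨d, hd, hud⟩, h2⟩
      refine ⟨d, hd, fun j => ?_⟩
      have h3 : u j ≤ a j - expo F j := h2 j
      have h4 := hud j
      have h5 := h1 j
      have h6 := expo_cast F j
      show (s : ℤ) - a j + ind F j ≤ d j
      omega
    · rintro ⟨d, hd, hle⟩
      have hle' : ∀ j, (s : ℤ) - a j + ind F j ≤ d j := hle
      refine ⟨fun j => ?_, Finsupp.equivFunOnFinite.symm fun l => (s - d l).toNat,
        ⟨d, hd, fun l => ?_⟩, fun j => ?_⟩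
      · have h1 := hle' j
        have h3 := PM_le hd j
        have h6 := expo_cast F j
        omega
      · have h1 := PM_le hd l
        show (((s - d l).toNat : ℕ) : ℤ) + d l = s
        rw [Int.toNat_of_nonneg (by omega)]
        omega
      · have h1 := hle' j
        have h3 := PM_le hd j
        have h6 := expo_cast F j
        show (s - d j).toNat ≤ a j - expo F j
        omega
  constructor
  · intro h F hF
    exact ⟨(h F hF).1, (h2 F).mp (h F hF).2⟩
  · intro h F hF
    exact ⟨(h F hF).1, (h2 F).mpr (h F hF).2⟩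

theorem tor_iff {G : SimpleGraph (Fin n)} (hG : G.Connected) (s i : ℕ) (a : Fin n →₀ ℕ) :
    TorNonzero (compEdge K G ^ s) i a ↔ 0 ≤ cc s a ∧ ∑ j, cc s a j + i = 2 * (s : ℤ) ∧
      ∃ z ∈ Zc K G s i (cc s a), z ≠ 0 := by
  classical
  constructor
  · rintro ⟨z, hz, hbz, hno⟩
    have hbz' : Q34.Poly.bd z = 0 := hbz
    rw [chain_iff] at hz
    obtain ⟨l⟩ := hG.nonempty
    obtain ⟨h, H⟩ := exists_ht hG l
    have hfin := PM.finite G s
    have hmem : ∀ x, x ∈ hfin.toFinset ↔ PM G s x := fun x => by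
      rw [Set.Finite.mem_toFinset]; rfl
    have hex : ∃ u ∈ hfin.toFinset, ∃ F : Finset (Fin n), F.card = i ∧ cc s a + ind F = u ∧
      ∀ q ∈ F, ∃ w, (w ∈ (∅ : Set (Z n)) ∨ (w ∈ hfin.toFinset ∧ key h w < key h u)) ∧
        u - ee q ≤ w := by
      by_contra hcon
      obtain ⟨w, hw, hbw⟩ := relAcyclic (K := K) (key h) (key_inj h) ∅ hfin.toFinset (by
        rintro u hu v (hv | ⟨hv, hlt⟩)
        · exact absurd hv (Set.notMem_empty _)
        · obtain ⟨q, hq, w, hw1, hw2, hw3⟩ := lqD H ((hmem u).mp hu) ((hmem v).mp hv) hlt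
          exact ⟨q, hq, w, Or.inr ⟨(hmem w).mpr hw1, hw2⟩, hw3⟩) i (cc s a) z (by
        rw [Set.Finite.coe_toFinset, Set.empty_union]
        exact hz) (by
        intro G' hG'
        rw [hbz'] at hG'
        exact absurd rfl hG') hcon
      refine hno w ?_ ?_
      · rw [chain_iff]
        rwa [Set.Finite.coe_toFinset, Set.empty_union] at hw
      · show Q34.Poly.bd w = z
        funext F
        by_contra hF
        obtain ⟨-, d, hd, -⟩ := hbw F (by
          rw [Pi.sub_apply]
          exact sub_ne_zero.mpr (Ne.symm hF))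
        exact hd
    obtain ⟨u, hu, F, hF, hcu, hst⟩ := hex
    have hPu := (hmem u).mp hu
    have hsum : ∑ j, cc s a j + i = 2 * (s : ℤ) := by
      have h1 := hPu.sum
      rw [← hcu, sum_add_ind, hF] at h1
      exact h1
    refine ⟨?_, hsum, z, ⟨hbz', ?_⟩, ?_⟩
    · intro q
      have h1 : cc s a q + ind F q = u q := congrFun hcu q
      have h2 := hPu.nonneg q
      show 0 ≤ cc s a q
      by_cases hq : q ∈ F
      · have h3 : ind F q = 1 := if_pos hq
        by_contra hcon
        obtain ⟨w, hw, hle⟩ := hst q hq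
        rcases hw with hw | ⟨hw, hlt⟩
        · exact hw
        have hPw := (hmem w).mp hw
        have h4 : u = w := by
          refine eq_of_le_of_sum (fun j => ?_) (by rw [hPw.sum, hPu.sum])
          have h5 : u j - ee q j ≤ w j := hle j
          have h6 := hPw.nonneg j
          show u j ≤ w j
          by_cases hj : j = q
          · subst hj
            omega
          · rw [ee_ne hj] at h5
            omega
        rw [h4] at hlt
        exact lt_irrefl _ hlt
      · have h3 : ind F q = 0 := if_neg hq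
        omega
    · intro F' hF'
      obtain ⟨h1, d, hd, hle⟩ := hz F' hF'
      refine ⟨h1, ?_⟩
      have hd' : PM G s d := hd
      have h4 := eq_of_le_of_sum hle (by rw [hd'.sum, sum_add_ind, h1, hsum])
      rw [h4]
      exact hd'
    · rintro rfl
      refine hno 0 (fun F hF => absurd rfl hF) ?_
      show Q34.Poly.bd (0 : Finset (Fin n) → K) = 0
      exact bd_zero
  · rintro ⟨-, hsum, z, ⟨hz, hz'⟩, hz0⟩
    refine ⟨z, ?_, hz, ?_⟩
    · rw [chain_iff]
      exact fun F hF => ⟨(hz' F hF).1, _, (hz' F hF).2, le_rfl⟩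
    · intro w hw hbw
      rw [chain_iff] at hw
      have h1 : w = 0 := by
        funext F
        by_contra hF
        obtain ⟨h1, d, hd, hle⟩ := hw F hF
        have hd' : PM G s d := hd
        have h2 : ∑ j, (cc s a + ind F) j ≤ ∑ j, d j := sum_le_sum fun j _ => hle j
        rw [hd'.sum, sum_add_ind, h1] at h2
        push_cast at h2
        omega
      apply hz0
      rw [← hbw, h1]
      show Q34.Poly.bd (0 : Finset (Fin n) → K) = 0
      exact bd_zero

/-- **Generation degrees of homological shift algebras of complementary edge ideals.** Let `G` be a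
connected graph on `n` vertices, `K` a field and `I = I_c(G)` the complementary edge ideal of `G` in
`K[x_1, …, x_n]`. Then `HS_i(I^(s+1)) = I · HS_i(I^s)` for all `i` and all `s ≥ i`, i.e. the graded
`R(I)`-module `HS_i(R(I))` is generated in degrees `≤ i`. -/
theorem result (K : Type*) [Field K] (n : ℕ) (G : SimpleGraph (Fin n)) (hG : G.Connected)
    (i s : ℕ) (hs : i ≤ s) :
    HS i (compEdge K G ^ (s + 1)) = compEdge K G * HS i (compEdge K G ^ s) := by
  unfold HS
  rw [compEdge_eq, span_mul, ← compEdge_eq]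
  congr 2
  ext a
  constructor
  · intro ha
    obtain ⟨hc, hsum, z, hz, hz0⟩ := (tor_iff hG (s + 1) i a).mp ha
    obtain ⟨j, k, hjk, hle, z', hz', hz0'⟩ := exists_edge hG hs hc (by
      rw [hsum]; push_cast; ring) hz hz0
    obtain ⟨F, hF⟩ : ∃ F, z' F ≠ 0 := by
      by_contra hcon
      push Not at hcon
      exact hz0' (funext hcon)
    have hP := (hz'.2 F hF).2
    have hge : expo (univ \ {j, k}) ≤ a := by
      intro x
      have h1 : ((s + 1 : ℕ) : ℤ) - a x - ee j x - ee k x + ind F x ≤ s := PM_le hP x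
      have h2 := expo_edge hjk.ne x
      have h3 := ind_nonneg F x
      push_cast at h1
      omega
    have hcc : cc s (a - expo (univ \ {j, k})) = cc (s + 1) a - ee j - ee k := by
      funext x
      have h2 := expo_edge hjk.ne x
      have h3 := hge x
      show (s : ℤ) - ((a x - expo (univ \ {j, k}) x : ℕ) : ℤ) =
        ((s + 1 : ℕ) : ℤ) - a x - ee j x - ee k x
      rw [Nat.cast_sub h3, h2]
      push_cast
      ring
    refine ⟨_, ⟨j, k, hjk, rfl⟩, a - expo (univ \ {j, k}), ?_, (add_tsub_cancel_of_le hge).symm⟩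
    refine (tor_iff hG s i _).mpr ⟨?_, ?_, ?_⟩
    · rw [hcc]
      intro x
      have h1 : ee j x + ee k x ≤ cc (s + 1) a x := hle x
      show 0 ≤ cc (s + 1) a x - ee j x - ee k x
      omega
    · rw [hcc, sum_sub_ee, sum_sub_ee]
      push_cast at hsum
      omega
    · rw [hcc]
      exact ⟨z', hz', hz0'⟩
  · rintro ⟨_, ⟨j, k, hjk, rfl⟩, y, hy, rfl⟩
    obtain ⟨hc, hsum, z, hz, hz0⟩ := (tor_iff hG s i y).mp hy
    have hcc : cc (s + 1) (expo (univ \ {j, k}) + y) = cc s y + ee j + ee k := by
      funext x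
      have h2 := expo_edge hjk.ne x
      rw [show cc (s + 1) (expo (univ \ {j, k}) + y) x = ((s + 1 : ℕ) : ℤ) -
        ((expo (univ \ {j, k}) x + y x : ℕ) : ℤ) from rfl]
      show _ = (s : ℤ) - y x + ee j x + ee k x
      push_cast
      rw [h2]
      ring
    refine (tor_iff hG (s + 1) i _).mpr ⟨?_, ?_, z, ⟨hz.1, ?_⟩, hz0⟩
    · rw [hcc]
      intro x
      have h1 : 0 ≤ cc s y x := hc x
      have h2 := ee_nonneg j x
      have h3 := ee_nonneg k x
      show 0 ≤ cc s y x + ee j x + ee k x
      omega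
    · rw [hcc]
      have h1 : ∑ x, (cc s y + ee j + ee k) x = ∑ x, cc s y x + ∑ x, ee j x + ∑ x, ee k x := by
        rw [← sum_add_distrib, ← sum_add_distrib]; rfl
      rw [h1, sum_ee, sum_ee]
      push_cast
      omega
    · rw [hcc]
      exact sup_edge hz.2 hjk rfl

end Pool.Agent.Results.MP_97fe03_al.ComplementaryEdge
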